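import Pool.Agent.H186.KS.Spec

set_option autoImplicit false

namespace Pool.Agent.H106.KS

open Finset Filter Topology Pool.Agent.H186.KS

theorem s_pk : S_pk := by
  intro δ hδ
  have h1 : Tendsto (fun k : ℕ => 6 * ((k : ℝ) ^ 5 / 2 ^ k)) atTop (𝓝 (6 * 0)) :=
    (tendsto_pow_const_div_const_pow_of_one_lt 5 (by norm_num : (1 : ℝ) < 2)).const_mul 6
  rw [mul_zero] at h1
  obtain ⟨k0, hk0⟩ := eventually_atTop.1 (h1.eventually (gt_mem_nhds hδ))
  refine ⟨max k0 1, fun k hk => ?_⟩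
  have hk1 : 1 ≤ k := (le_max_right _ _).trans hk
  have h2 := hk0 k ((le_max_left _ _).trans hk)
  refine le_trans ?_ h2.le
  unfold pk
  have h3 : ∑ j ∈ range (5 + 1), (k.choose j : ℝ) ≤ 6 * (k : ℝ) ^ 5 := by
    have h4 : ∀ j ∈ range (5 + 1), (k.choose j : ℝ) ≤ (k : ℝ) ^ 5 := by
      intro j hj
      have hj' : j ≤ 5 := by have := mem_range.1 hj; omega
      have h5 : k.choose j ≤ k ^ 5 := (Nat.choose_le_pow k j).trans (Nat.pow_le_pow_right hk1 hj')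
      exact_mod_cast h5
    have h6 := sum_le_card_nsmul _ _ _ h4
    rw [card_range, nsmul_eq_mul] at h6
    norm_num at h6 ⊢
    exact h6
  have h7 : (0 : ℝ) < 2 ^ k := by positivity
  rw [one_div]
  calc ((2 : ℝ) ^ k)⁻¹ * ∑ j ∈ range (5 + 1), (k.choose j : ℝ) ≤ ((2 : ℝ) ^ k)⁻¹ * (6 * (k : ℝ) ^ 5) := by
        gcongr
    _ = 6 * ((k : ℝ) ^ 5 / 2 ^ k) := by ring

end Pool.Agent.H106.KS
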